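import Pool.Agent.KEReg.Riem
import Pool.Agent.KEReg.Cut

/-!
# One minimal geodesic in the regular set is as good as all

`X` is a metric space (the metric completion of the regular set), `R` an open subset (the regular
set) near each point of which the distance is a Riemannian distance of class `C²`.

* `KEReg.IsMinimal c` : the continuous path `c` from `x` to `y` has length `d(x, y)`.
* `KEReg.Weak R x y`, `KEReg.Strong R x y` : some (resp. every) minimal geodesic from `x` to `y`
  is contained in `R`.
* `KEReg.IsConvex R` : the convexity of the problem, `Weak R x y` for all `x, y ∈ R`.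
* `KEReg.IsGeodesicSpace X` : any two points of `X` are joined by a minimal geodesic.
* `KEReg.RiemannianNear p` : near `p` the distance is a Riemannian distance of class `C²`.
-/

open Set

namespace Pool.Agent.Results.MP_3b8904_gt.AllGeodesics

open KEReg

theorem result {X : Type*} [MetricSpace X] {R : Set X} (hR : IsOpen R)
    (hRiem : ∀ p ∈ R, RiemannianNear p) :
    -- if every point near `y` is joined to `x` by some minimal geodesic in `R`, then all
    -- minimal geodesics from `x` to `y` lie in `R`
    (∀ x y : X, y ∈ interior {z | Weak R x z} → Strong R x y) ∧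
    -- the strong set is exactly the interior of the weak set
    (ProperSpace X → IsGeodesicSpace X →
      ∀ x : X, {y | Strong R x y} = interior {y | Weak R x y}) ∧
    -- convexity as in the problem is the strong form, and is the strict triangle inequality
    -- through the points outside `R`
    (IsGeodesicSpace X →
      (IsConvex R ↔ ∀ x ∈ R, ∀ y ∈ R, Strong R x y) ∧
      (IsConvex R ↔ ∀ x ∈ R, ∀ y ∈ R, ∀ p, p ∉ R → dist x y < dist x p + dist p y)) ∧
    -- weak and strong agree when `y` is not a cut point of `x`
    (IsGeodesicSpace X → ∀ x y y' : X, y ≠ y' → dist x y + dist y y' = dist x y' →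
      (Weak R x y ↔ Strong R x y)) := by
  have hnb : ∀ p ∈ R, NonBranchingAt p := fun p hp => nonBranchingAt_of_riemannianNear (hRiem p hp)
  refine ⟨fun x y h => strong_of_mem_interior hR hnb h, ?_, ?_, ?_⟩
  · intro hP hX x
    exact strong_eq_interior hX hR hnb x
  · intro hX
    exact ⟨isConvex_iff_strong hX hR hnb, isConvex_iff_dist hX hR hnb⟩
  · intro hX x y y' hne h
    exact ⟨fun hw => strong_of_not_cut hX hnb hne h hw, fun hs => strong_imp_weak hX hs⟩

end Pool.Agent.Results.MP_3b8904_gt.AllGeodesics
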