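import Pool.Agent.KEReg.Riem
import Pool.Agent.KEReg.Quot

/-!
# Convexity of the regular set and quotients by finite groups

`Y` is a geodesic metric space with an action of a finite group `G` by isometries, `S` an open
`G`-invariant subset near each point of which the distance is a Riemannian distance of class `C²`
(`KEReg.RiemannianNear`), and `π : Y → X` the metric quotient.

* `KEReg.IsMetricQuotient G π` : `π` is onto and `d(π x, π y) = min_g d(x, g y)`.
* `KEReg.freePart G S` : the points of `S` with trivial stabiliser.
* `KEReg.IsConvex`, `KEReg.Weak`, `KEReg.IsGeodesicSpace` : convexity of the problem, existence of a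
  minimal geodesic inside the set, existence of a minimal geodesic in the space.
-/

open Set Metric

namespace Pool.Agent.Results.MP_3b8904_gt.FiniteQuotients

open KEReg

theorem result {X Y : Type*} [MetricSpace X] [MetricSpace Y] {G : Type*} [Group G] [Finite G]
    [MulAction G Y] [IsIsometricSMul G Y] (hY : IsGeodesicSpace Y) {π : Y → X}
    (hπ : IsMetricQuotient G π) {S : Set Y} (hS : IsOpen S)
    (hSG : ∀ (g : G), ∀ y ∈ S, g • y ∈ S) (hRiem : ∀ p ∈ S, RiemannianNear p) :
    (IsConvex (π '' freePart G S) ↔
      ∀ x ∈ freePart G S, ∀ y ∈ freePart G S, (∀ g : G, dist x y ≤ dist x (g • y)) →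
        Weak S x y) ∧
    (IsConvex S → IsConvex (π '' freePart G S)) := by
  have hnb : ∀ p ∈ S, NonBranchingAt p := fun p hp => nonBranchingAt_of_riemannianNear (hRiem p hp)
  have h1 := isConvex_quotient_iff hπ hY hS hSG hnb
  exact ⟨h1, fun h => h1.2 fun x hx y hy _ => h x hx.1 y hy.1⟩

end Pool.Agent.Results.MP_3b8904_gt.FiniteQuotients
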