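import Pool.Agent.KEReg.Riem
import Pool.Agent.KEReg.Sphere

/-!
# Convexity of the regular set is a local property of the singular points

`X` is a proper geodesic metric space, `R` an open subset near each point of which the distance is
a Riemannian distance of class `C²` (`KEReg.RiemannianNear`).

* `KEReg.IsMinimal c` : the continuous path `c` from `x` to `y` has length `d(x, y)`.
* `KEReg.IsConvex R` : every two points of `R` are joined by some minimal geodesic in `R`.
* `KEReg.IsGeodesicSpace X` : any two points of `X` are joined by a minimal geodesic.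
-/

open Set Metric

namespace Pool.Agent.Results.MP_3b8904_gt.LocalCriterion

open KEReg

theorem result {X : Type*} [MetricSpace X] [ProperSpace X] (hX : IsGeodesicSpace X) {R : Set X}
    (hR : IsOpen R) (hRiem : ∀ p ∈ R, RiemannianNear p) :
    -- locality, when the complement contains no minimal geodesic
    ((∀ x y : X, x ≠ y → ∀ c : Path x y, IsMinimal c → ¬ range c ⊆ Rᶜ) →
      (IsConvex R ↔ ∀ p, p ∉ R → ∃ ε > 0, ∀ x ∈ R, ∀ y ∈ R, dist x p < ε → dist p y < ε →
        dist x y < dist x p + dist p y)) ∧
    -- isolated points of the complement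
    ((∀ p, p ∉ R → ∃ ε > 0, ∀ q, q ∉ R → dist q p < ε → q = p) →
      [IsConvex R,
       ∀ p, p ∉ R → ∀ x y : X, x ≠ p → y ≠ p → dist x y < dist x p + dist p y,
       ∀ p, p ∉ R → ∀ r > 0, diam (sphere p r) < 2 * r,
       ∀ p, p ∉ R → ∀ ε > 0, ∃ r, 0 < r ∧ r < ε ∧ diam (sphere p r) < 2 * r].TFAE) := by
  have hnb : ∀ p ∈ R, NonBranchingAt p := fun p hp => nonBranchingAt_of_riemannianNear (hRiem p hp)
  have hCS := isConvex_iff_strong hX hR hnb
  refine ⟨?_, ?_⟩
  · intro hseg
    rw [hCS]
    constructor
    · intro h p hp
      exact ⟨1, one_pos, fun x hx y hy _ _ => (strong_iff_dist hX).1 (h x hx y hy) p hp⟩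
    · intro h
      exact strong_of_local hR hseg h
  · intro hiso
    tfae_have 1 → 3 := by
      intro h p hp r hr
      obtain ⟨ε, hε, hiso'⟩ := hiso p hp
      rcases sphere_dichotomy hX p with ⟨r₀, hr₀, h1⟩ | h1
      · exfalso
        have h2 : 0 < min ε r₀ / 2 := by
          have : 0 < min ε r₀ := lt_min hε hr₀
          linarith
        have h3 : min ε r₀ / 2 < ε := by linarith [min_le_left ε r₀, lt_min hε hr₀]
        have h4 : min ε r₀ / 2 < r₀ := by linarith [min_le_right ε r₀, lt_min hε hr₀]
        have h5 := sphere_of_isolated hX (hCS.1 h) hp hiso' _ h2 h3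
        rw [h1 _ h2 h4] at h5
        exact lt_irrefl _ h5
      · exact h1 r hr
    tfae_have 3 → 2 := by
      intro h p hp x y hx hy
      by_contra hcon
      push Not at hcon
      have heq : dist x p + dist p y = dist x y := le_antisymm hcon (dist_triangle _ _ _)
      have h1 : 0 < dist x p := dist_pos.2 hx
      have h2 : 0 < dist p y := dist_pos.2 hy.symm
      have h3 : 0 < min (dist x p) (dist p y) := lt_min h1 h2
      have h4 := diam_sphere_eq hX heq h3 (min_le_left _ _) (min_le_right _ _)
      have h5 := h p hp _ h3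
      rw [h4] at h5
      exact lt_irrefl _ h5
    tfae_have 2 → 1 := by
      intro h
      rw [hCS]
      intro x hx y hy
      rw [strong_iff_dist hX]
      intro p hp
      exact h p hp x y (fun hxp => hp (hxp ▸ hx)) (fun hyp => hp (hyp ▸ hy))
    tfae_have 3 → 4 := by
      intro h p hp ε hε
      exact ⟨ε / 2, by linarith, by linarith, h p hp _ (by linarith)⟩
    tfae_have 4 → 1 := by
      intro h
      rw [hCS]
      exact strong_of_sphere hX h
    tfae_finish

end Pool.Agent.Results.MP_3b8904_gt.LocalCriterion
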